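import Pool.Agent.EDX.Stmts1

set_option autoImplicit false

namespace Pool.Agent.EDX.H77

open Polynomial Finset Pool.Agent.EDG Module

section

variable {k₀ V R : Type} [Field k₀] [AddCommGroup V] [Module k₀ V] [CommRing R]

theorem pt1_map {W : Type} [AddCommGroup W] [Module k₀ W] (f : V →ₗ[k₀] W) (Y : Submodule k₀ V)
    [FiniteDimensional k₀ Y] :
    finrank k₀ (Y.map f) + finrank k₀ ↥(Y ⊓ LinearMap.ker f) = finrank k₀ Y := by
  have h1 := LinearMap.finrank_range_add_finrank_ker (f.domRestrict Y)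
  rw [LinearMap.range_domRestrict] at h1
  have h2 : finrank k₀ (LinearMap.ker (f.domRestrict Y)) = finrank k₀ ↥(Y ⊓ LinearMap.ker f) := by
    rw [LinearMap.ker_domRestrict]
    have h3 : (Submodule.comap Y.subtype (LinearMap.ker f)).map Y.subtype = Y ⊓ LinearMap.ker f := by
      rw [Submodule.map_comap_subtype]
    rw [← h3]
    exact (LinearEquiv.finrank_eq (Submodule.equivMapOfInjective Y.subtype Y.injective_subtype
      (Submodule.comap Y.subtype (LinearMap.ker f))))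
  rw [← h2]
  exact h1

theorem pt1_sup (Z X Y : Submodule k₀ V) [FiniteDimensional k₀ X] [FiniteDimensional k₀ Y] :
    dr Z (X ⊔ Y) = dr Z X + dr (Z ⊔ X) Y := by
  unfold dr
  have hle : Z ≤ LinearMap.ker (Z ⊔ X).mkQ := by
    rw [Submodule.ker_mkQ]; exact le_sup_left
  have h1 := pt1_map (Z.liftQ (Z ⊔ X).mkQ hle) (Y.map Z.mkQ)
  have h2 : (Y.map Z.mkQ).map (Z.liftQ (Z ⊔ X).mkQ hle) = Y.map (Z ⊔ X).mkQ := by
    rw [← Submodule.map_comp, Submodule.liftQ_mkQ]
  have h3 : LinearMap.ker (Z.liftQ (Z ⊔ X).mkQ hle) = X.map Z.mkQ := by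
    rw [Submodule.ker_liftQ, Submodule.ker_mkQ, Submodule.map_sup]
    have : Z.map Z.mkQ = ⊥ := Submodule.mkQ_map_self Z
    rw [this, bot_sup_eq]
  rw [h2, h3] at h1
  have h4 := Submodule.finrank_sup_add_finrank_inf_eq (X.map Z.mkQ) (Y.map Z.mkQ)
  rw [Submodule.map_sup]
  rw [inf_comm] at h1
  omega

theorem pt1_le {W : Type} [AddCommGroup W] [Module k₀ W] (g : V →ₗ[k₀] W) (Z Y : Submodule k₀ V)
    [FiniteDimensional k₀ Y] (h : Z ≤ LinearMap.ker g) : finrank k₀ (Y.map g) ≤ dr Z Y := by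
  unfold dr
  have h1 : Y.map g = (Y.map Z.mkQ).map (Z.liftQ g h) := by
    rw [← Submodule.map_comp, Submodule.liftQ_mkQ]
  rw [h1]
  exact Submodule.finrank_map_le _ _

theorem pt1_fin (ρ : R →+* Module.End k₀ V) (S : Finset R) (U : Submodule k₀ V)
    [FiniteDimensional k₀ U] : FiniteDimensional k₀ (pr ρ S U) := by
  unfold pr
  rw [← Finset.sup_eq_iSup]
  infer_instance

theorem pt1_pr_sup (ρ : R →+* Module.End k₀ V) (S : Finset R) (U W : Submodule k₀ V) :
    pr ρ S (U ⊔ W) = pr ρ S U ⊔ pr ρ S W := by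
  unfold pr
  simp only [Submodule.map_sup, iSup_sup_eq]

theorem pt1_pr_mono (ρ : R →+* Module.End k₀ V) (S : Finset R) {U W : Submodule k₀ V}
    (h : U ≤ W) : pr ρ S U ≤ pr ρ S W := by
  unfold pr
  exact iSup_mono fun w => iSup_mono fun _ => Submodule.map_mono h

theorem pt1_pr_map (ρ : R →+* Module.End k₀ V) (S : Finset R) (U : Submodule k₀ V) (c : R) :
    pr ρ S (U.map (ρ c)) = (pr ρ S U).map (ρ c) := by
  unfold pr
  simp only [Submodule.map_iSup]
  refine iSup_congr fun w => iSup_congr fun _ => ?_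
  rw [← Submodule.map_comp, ← Submodule.map_comp]
  have h1 : (ρ w) ∘ₗ (ρ c) = (ρ c) ∘ₗ (ρ w) := by
    have h2 : ρ w * ρ c = ρ c * ρ w := by rw [← map_mul, ← map_mul, mul_comm]
    exact h2
  rw [h1]

theorem pt1_pr_insert [DecidableEq R] (ρ : R →+* Module.End k₀ V) (C : Finset R)
    (U : Submodule k₀ V) (c : R) :
    pr ρ (insert c C) U = pr ρ C U ⊔ U.map (ρ c) := by
  unfold pr
  rw [Finset.iSup_insert, sup_comm]

end

theorem pt1 : Pt1Stmt := by
  classical
  intro k₀ V R _ _ _ _ ρ Z S C a b l K U hU hS hC hmin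
  induction C using Finset.induction_on with
  | empty =>
    have h1 : pr ρ (∅ : Finset R) U = ⊥ := by
      unfold pr; simp
    have h2 : pr ρ S (⊥ : Submodule k₀ V) = ⊥ := by
      unfold pr; simp
    rw [h1, h2]
    unfold dr
    rw [Submodule.map_bot, finrank_bot]
    exact Nat.zero_le _
  | insert c C' hc ih =>
    have ih' := ih (fun d hd => hC d (Finset.mem_insert_of_mem hd))
    have hcb := hC c (Finset.mem_insert_self c C')
    have : FiniteDimensional k₀ (pr ρ C' U) := pt1_fin ρ C' U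
    have : FiniteDimensional k₀ (pr ρ S U) := pt1_fin ρ S U
    have : FiniteDimensional k₀ (pr ρ S (pr ρ C' U)) := pt1_fin ρ S _
    rw [pt1_pr_insert, pt1_pr_sup, pt1_pr_map]
    have e1 := pt1_sup (Z (l + a)) (pr ρ C' U) (U.map (ρ c))
    have e2 := pt1_sup (Z l) (pr ρ S (pr ρ C' U)) ((pr ρ S U).map (ρ c))
    -- the subspace U₁
    have e3 := pt1_map ((Z (l + a) ⊔ pr ρ C' U).mkQ ∘ₗ (ρ c)) U
    set U₁ : Submodule k₀ V := U ⊓ LinearMap.ker ((Z (l + a) ⊔ pr ρ C' U).mkQ ∘ₗ (ρ c)) with hU₁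
    have hle : U₁ ≤ U := inf_le_left
    have : FiniteDimensional k₀ U₁ := Submodule.finiteDimensional_of_le hle
    have : FiniteDimensional k₀ (pr ρ S U₁) := pt1_fin ρ S U₁
    have e4 := hmin U₁ hle
    have e5 := pt1_sup (Z (l + b)) (pr ρ S U₁) (pr ρ S U)
    rw [sup_eq_right.mpr (pt1_pr_mono ρ S hle)] at e5
    -- the map
    have hmem : ∀ u ∈ U₁, ρ c u ∈ Z (l + a) ⊔ pr ρ C' U := by
      intro u hu
      have h1 := hu.2
      rw [SetLike.mem_coe, LinearMap.mem_ker, LinearMap.comp_apply, Submodule.mkQ_apply,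
        Submodule.Quotient.mk_eq_zero] at h1
      exact h1
    have hk : Z (l + b) ⊔ pr ρ S U₁ ≤
        LinearMap.ker ((Z l ⊔ pr ρ S (pr ρ C' U)).mkQ ∘ₗ (ρ c)) := by
      rw [LinearMap.ker_comp, Submodule.ker_mkQ]
      apply sup_le
      · exact le_trans (Submodule.map_le_iff_le_comap.mp (hcb l))
          (Submodule.comap_mono le_sup_left)
      · unfold pr
        refine iSup₂_le fun w hw => ?_
        rintro _ ⟨u, hu, rfl⟩
        rw [Submodule.mem_comap]
        have h1 : ρ c (ρ w u) = ρ w (ρ c u) := by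
          have h2 : ρ c * ρ w = ρ w * ρ c := by rw [← map_mul, ← map_mul, mul_comm]
          exact congrArg (fun f => f u) h2
        rw [h1]
        obtain ⟨z, hz, v, hv, hzv⟩ := Submodule.mem_sup.mp (hmem u hu)
        rw [← hzv, map_add]
        refine Submodule.add_mem _ ?_ ?_
        · exact Submodule.mem_sup_left (hS w hw l (Submodule.mem_map_of_mem hz))
        · apply Submodule.mem_sup_right
          exact Submodule.mem_iSup_of_mem w (Submodule.mem_iSup_of_mem hw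
            (Submodule.mem_map_of_mem hv))
    have e6 := pt1_le ((Z l ⊔ pr ρ S (pr ρ C' U)).mkQ ∘ₗ (ρ c)) (Z (l + b) ⊔ pr ρ S U₁)
      (pr ρ S U) hk
    rw [Submodule.map_comp] at e3 e6
    have e7 : finrank k₀ ((U.map (ρ c)).map (Z (l + a) ⊔ pr ρ C' U).mkQ) =
      dr (Z (l + a) ⊔ pr ρ C' U) (U.map (ρ c)) := rfl
    have e8 : finrank k₀ (((pr ρ S U).map (ρ c)).map (Z l ⊔ pr ρ S (pr ρ C' U)).mkQ) =
      dr (Z l ⊔ pr ρ S (pr ρ C' U)) ((pr ρ S U).map (ρ c)) := rfl
    rw [e7] at e3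
    rw [e8] at e6
    rw [e1, e2]
    rw [← e3, Nat.mul_add] at e4
    rw [Nat.mul_add]
    omega

end Pool.Agent.EDX.H77
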